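import Pool.Agent.Helper67_LPZ.Sum

/-!
# Positive kernels of all degrees (helper67, MP_37fa12_co): Gegenbauer polynomials in dimension 22
-/

set_option autoImplicit false

noncomputable section

open MeasureTheory Filter Topology
open scoped RealInnerProductSpace ContDiff

namespace Pool.Agent.LPZ

open Pool.Agent.LPK

/-- insertion of a term -/
def ins (t : ℤ × ℕ × ℕ × ℕ) : P3 → P3
  | [] => [t]
  | u :: r => if u.2 = t.2 then (t.1 + u.1, u.2) :: r else u :: ins t r

/-- normal form -/
def nf (p : P3) : P3 := p.foldr ins []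

theorem e3_ins (t : ℤ × ℕ × ℕ × ℕ) (p : P3) (A B H : ℝ) : e3 (ins t p) A B H = e3 (t :: p) A B H := by
  induction p with
  | nil => rfl
  | cons u p ih =>
    rw [ins]
    split_ifs with h
    · simp only [e3_cons]
      rw [h]; push_cast; ring
    · rw [e3_cons, ih, e3_cons, e3_cons, e3_cons]; ring

theorem e3_nf (p : P3) (A B H : ℝ) : e3 (nf p) A B H = e3 p A B H := by
  induction p with
  | nil => rfl
  | cons u p ih =>
    have : nf (u :: p) = ins u (nf p) := rfl
    rw [this, e3_ins, e3_cons, e3_cons, ih]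

/-- zero test -/
def isZ (p : P3) : Bool := (nf p).all fun t => decide (t.1 = 0)

theorem isZ_sound (p : P3) (h : isZ p = true) (A B H : ℝ) : e3 p A B H = 0 := by
  rw [← e3_nf]
  unfold isZ at h
  generalize nf p = q at h
  induction q with
  | nil => exact e3_nil A B H
  | cons u q ih =>
    rw [List.all_cons, Bool.and_eq_true] at h
    have h1 : u.1 = 0 := by simpa using h.1
    rw [e3_cons, ih h.2, h1]; simp

/-- a positive multiple -/
theorem sqk_scale {n : ℕ} {p q : P3} {k : ℝ} (hk : 0 < k) (h : SqK n p)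
    (he : ∀ A B H : ℝ, e3 p A B H = k * e3 q A B H) : SqK n q := by
  obtain ⟨ι, _, g, hg, hK⟩ := h
  refine ⟨ι, inferInstance, fun j x => (1 / Real.sqrt k) * g j x,
    fun j => contDiff_const.mul (hg j), fun x y => ?_⟩
  have h1 : e3 q (‖x‖ ^ 2) (‖y‖ ^ 2) ⟪x, y⟫ = (1 / k) * ∑ j, g j x * g j y := by
    rw [← hK, he]; field_simp
  rw [h1, Finset.mul_sum]
  refine Finset.sum_congr rfl fun j _ => ?_
  have h2 : (1 / Real.sqrt k) * (1 / Real.sqrt k) = 1 / k := by
    rw [div_mul_div_comm, Real.mul_self_sqrt hk.le]; simp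
  calc (1 / k) * (g j x * g j y) = ((1 / Real.sqrt k) * (1 / Real.sqrt k)) * (g j x * g j y) := by
        rw [h2]
    _ = _ := by ring

/-- Gegenbauer polynomial of degree `l` for `ν = n/2 - 1`, homogeneous in `A, B, H`:
`∑_k (-1)^k (l-k+ν-1)! / ((ν-1)! k! (l-2k)!) (2H)^(l-2k) (AB)^k` -/
def geg (n l : ℕ) : P3 := (List.range (l / 2 + 1)).map fun k =>
  ((-1) ^ k * 2 ^ (l - 2 * k) * (((l - k + (n / 2 - 1) - 1).factorial /
    ((n / 2 - 1 - 1).factorial * k.factorial * (l - 2 * k).factorial) : ℕ) : ℤ), k, k, l - 2 * k)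

/-- the check of one step -/
def chk (n l : ℕ) : Bool :=
  isZ (sc ((n + 2 * l - 2) * (l + 1)) (geg n (l + 1)) ++ sc (-1) (opM n (n + 2 * l - 2) (geg n l)))

theorem chk22 : ∀ l < 26, chk 22 l = true := by decide +kernel

theorem sqk_geg : ∀ l : ℕ, l ≤ 26 → SqK 22 (geg 22 l) := by
  intro l
  induction l with
  | zero =>
    intro _
    have h : geg 22 0 = [(1, 0, 0, 0)] := by decide +kernel
    rw [h]
    exact sqk_one 22
  | succ l ih =>
    intro hl
    have h1 := sqk_step 22 (22 + 2 * l - 2) _ (ih (by omega))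
    have h2 := isZ_sound _ (chk22 l (by omega))
    refine sqk_scale (k := ((22 + 2 * (l : ℝ) - 2) * (l + 1))) (mul_pos (by linarith [(Nat.cast_nonneg l : (0:ℝ) ≤ l)]) (by positivity)) h1 ?_
    intro A B H
    have h3 := h2 A B H
    rw [e3_app, e3_sc, e3_sc] at h3
    push_cast at h3
    linarith

end Pool.Agent.LPZ
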