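import Pool.Agent.Helper67_LPZ.Zk

/-!
# Positive kernels of all degrees (helper67, MP_37fa12_co): sums over lattices
-/

set_option autoImplicit false

noncomputable section

open MeasureTheory Filter Topology
open scoped RealInnerProductSpace ContDiff

namespace Pool.Agent.LPZ

open Pool.Agent.LPK

/-- finite sums -/
theorem fin_nonneg {n : ℕ} {p : P3} (h : SqK n p) {ι : Type} (F : Finset ι) (w : ι → ℝ)
    (x : ι → V n) :
    0 ≤ ∑ a ∈ F ×ˢ F, w a.1 * w a.2 * e3 p (‖x a.1‖ ^ 2) (‖x a.2‖ ^ 2) ⟪x a.1, x a.2⟫ := by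
  obtain ⟨κ, _, g, _, hK⟩ := h
  have h1 : ∀ a c : ι, w a * w c * e3 p (‖x a‖ ^ 2) (‖x c‖ ^ 2) ⟪x a, x c⟫ =
      ∑ j, (w a * g j (x a)) * (w c * g j (x c)) := by
    intro a c
    rw [hK, Finset.mul_sum]
    refine Finset.sum_congr rfl fun j _ => ?_
    ring
  have h2 : ∑ a ∈ F ×ˢ F, w a.1 * w a.2 * e3 p (‖x a.1‖ ^ 2) (‖x a.2‖ ^ 2) ⟪x a.1, x a.2⟫ =
      ∑ j, (∑ a ∈ F, w a * g j (x a)) ^ 2 := by
    rw [Finset.sum_product]
    simp only [h1]
    have h3 : ∀ a ∈ F, ∑ c ∈ F, ∑ j, (w a * g j (x a)) * (w c * g j (x c)) =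
        ∑ j, (w a * g j (x a)) * ∑ c ∈ F, (w c * g j (x c)) := by
      intro a _
      rw [Finset.sum_comm]
      refine Finset.sum_congr rfl fun j _ => ?_
      rw [Finset.mul_sum]
    rw [Finset.sum_congr rfl h3, Finset.sum_comm]
    refine Finset.sum_congr rfl fun j _ => ?_
    rw [← Finset.sum_mul, pow_two]
  rw [h2]
  exact Finset.sum_nonneg fun j _ => sq_nonneg _

/-- squares of finite sets are cofinal -/
theorem tendsto_sq (ι : Type) :
    Tendsto (fun F : Finset ι => F ×ˢ F) atTop (atTop : Filter (Finset (ι × ι))) := by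
  classical
  refine tendsto_atTop_finset_of_monotone (fun F F' h => Finset.product_subset_product h h)
    fun a => ⟨{a.1, a.2}, ?_⟩
  simp

/-- infinite sums -/
theorem tsum_nonneg_of_sqk {n : ℕ} {p : P3} (h : SqK n p) {ι : Type} (w : ι → ℝ) (x : ι → V n)
    (hs : Summable fun a : ι × ι =>
      w a.1 * w a.2 * e3 p (‖x a.1‖ ^ 2) (‖x a.2‖ ^ 2) ⟪x a.1, x a.2⟫) :
    0 ≤ ∑' a : ι × ι, w a.1 * w a.2 * e3 p (‖x a.1‖ ^ 2) (‖x a.2‖ ^ 2) ⟪x a.1, x a.2⟫ :=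
  ge_of_tendsto' ((show Tendsto _ _ _ from hs.hasSum).comp (tendsto_sq ι)) fun F => fin_nonneg h F w x

/-- growth of a polynomial in one variable -/
theorem e1_bound (s : List ℤ) : ∃ (C : ℝ) (m : ℕ), 0 ≤ C ∧ ∀ x : ℝ, 0 ≤ x →
    |e1 s x| ≤ C * (1 + x) ^ m := by
  induction s with
  | nil => exact ⟨0, 0, le_refl _, fun x _ => by simp [e1]⟩
  | cons a s ih =>
    obtain ⟨C, m, hC, h⟩ := ih
    refine ⟨|(a : ℝ)| + C, m + 1, by positivity, fun x hx => ?_⟩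
    have h1 : (1 : ℝ) ≤ (1 + x) ^ (m + 1) := one_le_pow₀ (by linarith)
    have h2 : |x * e1 s x| ≤ C * (1 + x) ^ (m + 1) := by
      rw [abs_mul, abs_of_nonneg hx, pow_succ]
      have := h x hx
      have h3 : (0 : ℝ) ≤ C * (1 + x) ^ m := by positivity
      calc x * |e1 s x| ≤ x * (C * (1 + x) ^ m) := mul_le_mul_of_nonneg_left this hx
        _ ≤ (1 + x) * (C * (1 + x) ^ m) := mul_le_mul_of_nonneg_right (by linarith) h3
        _ = C * ((1 + x) ^ m * (1 + x)) := by ring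
    calc |e1 (a :: s) x| = |(a : ℝ) + x * e1 s x| := by simp [e1]
      _ ≤ |(a : ℝ)| + |x * e1 s x| := abs_add_le _ _
      _ ≤ |(a : ℝ)| * (1 + x) ^ (m + 1) + C * (1 + x) ^ (m + 1) := by
          refine add_le_add ?_ h2
          exact le_mul_of_one_le_right (abs_nonneg _) h1
      _ = (|(a : ℝ)| + C) * (1 + x) ^ (m + 1) := by ring

/-- `(1 + A)^k (1 + B)^k` -/
def pw : ℕ → P3
  | 0 => [(1, 0, 0, 0)]
  | k + 1 => (pw k ++ mA (pw k)) ++ mB (pw k ++ mA (pw k))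

theorem e3_pw (k : ℕ) (A B H : ℝ) : e3 (pw k) A B H = (1 + A) ^ k * (1 + B) ^ k := by
  induction k with
  | zero => simp [pw, e3]
  | succ k ih => rw [pw, e3_app, e3_mB, e3_app, e3_mA, ih]; ring

/-- **positivity over a lattice, all degrees** (the form of PS2) -/
theorem lat_nonneg (bdd : BddStmt) (sum : SumStmt) (n : ℕ) (κ : ℝ) (b b' : Fin n → V n)
    (hD : Du κ b b') (p : P3) (h : SqK n p) (s : List ℤ) :
    (Summable fun a : Z2 n => W1 s (pt b a.1) * W1 s (pt b a.2) *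
      e3 p (‖pt b a.1‖ ^ 2) (‖pt b a.2‖ ^ 2) ⟪pt b a.1, pt b a.2⟫) ∧
    0 ≤ ∑' a : Z2 n, W1 s (pt b a.1) * W1 s (pt b a.2) *
      e3 p (‖pt b a.1‖ ^ 2) (‖pt b a.2‖ ^ 2) ⟪pt b a.1, pt b a.2⟫ := by
  have hs : Summable fun a : Z2 n => W1 s (pt b a.1) * W1 s (pt b a.2) *
      e3 p (‖pt b a.1‖ ^ 2) (‖pt b a.2‖ ^ 2) ⟪pt b a.1, pt b a.2⟫ := by
    obtain ⟨C, m, hC, h1⟩ := bdd p
    obtain ⟨C', m', hC', h2⟩ := e1_bound s
    obtain ⟨_, h3, _, _⟩ := sum n κ κ b b b' b' hD hD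
    refine Summable.of_norm_bounded ((h3 (pw (m + m'))).mul_left (C * (C' * C'))) fun a => ?_
    have hA : (0 : ℝ) ≤ ‖pt b a.1‖ ^ 2 := by positivity
    have hB : (0 : ℝ) ≤ ‖pt b a.2‖ ^ 2 := by positivity
    have hG1 : 0 ≤ G (pt b a.1) := (Real.exp_pos _).le
    have hG2 : 0 ≤ G (pt b a.2) := (Real.exp_pos _).le
    rw [Real.norm_eq_abs, abs_mul, abs_mul]
    unfold W1 W
    rw [abs_mul, abs_mul, abs_of_nonneg hG1, abs_of_nonneg hG2, e3_pw]
    have k1 := h1 n (pt b a.1) (pt b a.2)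
    have k2 := h2 _ hA
    have k3 := h2 _ hB
    set A := ‖pt b a.1‖ ^ 2
    set B := ‖pt b a.2‖ ^ 2
    set g1 := G (pt b a.1)
    set g2 := G (pt b a.2)
    calc |e1 s A| * g1 * (|e1 s B| * g2) * |e3 p A B ⟪pt b a.1, pt b a.2⟫|
        ≤ (C' * (1 + A) ^ m' * g1) * (C' * (1 + B) ^ m' * g2) *
          (C * (1 + A) ^ m * (1 + B) ^ m) := by
            refine mul_le_mul (mul_le_mul (mul_le_mul_of_nonneg_right k2 hG1)
              (mul_le_mul_of_nonneg_right k3 hG2) (by positivity) (by positivity)) k1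
              (abs_nonneg _) (by positivity)
      _ = C * (C' * C') * ((1 + A) ^ (m + m') * (1 + B) ^ (m + m') * (g1 * g2)) := by
            rw [pow_add, pow_add]; ring
  exact ⟨hs, tsum_nonneg_of_sqk h (fun a : Fin n → ℤ => W1 s (pt b a)) (fun a => pt b a) hs⟩

end Pool.Agent.LPZ
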