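import Pool.Agent.LPK.Stmts

/-!
# Positive kernels of all degrees (helper67, MP_37fa12_co)

Raising operators: `M_i h = c x_i h - ‖x‖² ∂_i h`.  If `K(x,y) = p(‖x‖², ‖y‖², ⟨x,y⟩) = ∑_j h_j(x) h_j(y)` then
`∑_i M_i^x M_i^y K = ∑_(i,j) (M_i h_j)(x) (M_i h_j)(y)`, and this is again a polynomial in
`‖x‖², ‖y‖², ⟨x,y⟩`.
-/

set_option autoImplicit false

noncomputable section

open MeasureTheory Filter Topology
open scoped RealInnerProductSpace ContDiff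

namespace Pool.Agent.LPZ

open Pool.Agent.LPK

/-- derivative with respect to `B` -/
def dB (p : P3) : P3 := p.map fun t => (t.1 * t.2.2.1, t.2.1, t.2.2.1 - 1, t.2.2.2)

/-- coefficient of `x_i` in `M_i^x` -/
def opU (c : ℤ) (q : P3) : P3 := sc c q ++ sc (-2) (mA (dA q))

/-- coefficient of `y_i` in `M_i^x` -/
def opV (q : P3) : P3 := sc (-1) (mA (dH q))

/-- `∑_i M_i^x M_i^y` -/
def opM (n : ℕ) (c : ℤ) (q : P3) : P3 :=
  sc c (mH (opU c q)) ++ (sc c (mB (opV q)) ++ (sc (-2) (mB (mH (dB (opU c q)))) ++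
    (sc (-1) (mB (mA (dH (opU c q)))) ++ (sc (-n) (mB (opV q)) ++
      (sc (-2) (mB (mB (dB (opV q)))) ++ sc (-1) (mB (mH (dH (opV q)))))))))

/-- the positive kernel of degree `l` (not normalised) -/
def Zk (n : ℕ) : ℕ → P3
  | 0 => [(1, 0, 0, 0)]
  | l + 1 => opM n (n + 2 * l - 2) (Zk n l)

/-! ### values -/

theorem e3_nil (A B H : ℝ) : e3 [] A B H = 0 := by simp [e3]

theorem e3_cons (t : ℤ × ℕ × ℕ × ℕ) (p : P3) (A B H : ℝ) :
    e3 (t :: p) A B H = (t.1 : ℝ) * A ^ t.2.1 * B ^ t.2.2.1 * H ^ t.2.2.2 + e3 p A B H := by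
  simp [e3]

theorem e3_app (p q : P3) (A B H : ℝ) : e3 (p ++ q) A B H = e3 p A B H + e3 q A B H := by
  induction p with
  | nil => simp [e3]
  | cons t p ih => rw [List.cons_append, e3_cons, e3_cons, ih]; ring

theorem e3_sc (c : ℤ) (p : P3) (A B H : ℝ) : e3 (sc c p) A B H = c * e3 p A B H := by
  induction p with
  | nil => simp [e3, sc]
  | cons t p ih =>
    have h1 : sc c (t :: p) = (c * t.1, t.2.1, t.2.2.1, t.2.2.2) :: sc c p := rfl
    rw [h1, e3_cons, e3_cons, ih]; push_cast; ring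

theorem e3_mA (p : P3) (A B H : ℝ) : e3 (mA p) A B H = A * e3 p A B H := by
  induction p with
  | nil => simp [e3, mA]
  | cons t p ih =>
    have h1 : mA (t :: p) = (t.1, t.2.1 + 1, t.2.2.1, t.2.2.2) :: mA p := rfl
    rw [h1, e3_cons, e3_cons, ih]; push_cast; ring

theorem e3_mB (p : P3) (A B H : ℝ) : e3 (mB p) A B H = B * e3 p A B H := by
  induction p with
  | nil => simp [e3, mB]
  | cons t p ih =>
    have h1 : mB (t :: p) = (t.1, t.2.1, t.2.2.1 + 1, t.2.2.2) :: mB p := rfl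
    rw [h1, e3_cons, e3_cons, ih]; push_cast; ring

theorem e3_mH (p : P3) (A B H : ℝ) : e3 (mH p) A B H = H * e3 p A B H := by
  induction p with
  | nil => simp [e3, mH]
  | cons t p ih =>
    have h1 : mH (t :: p) = (t.1, t.2.1, t.2.2.1, t.2.2.2 + 1) :: mH p := rfl
    rw [h1, e3_cons, e3_cons, ih]; push_cast; ring

/-- chain rule -/
theorem deriv_e3 (p : P3) (a b h : ℝ → ℝ) (a' b' h' t : ℝ) (ha : HasDerivAt a a' t)
    (hb : HasDerivAt b b' t) (hh : HasDerivAt h h' t) :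
    HasDerivAt (fun s => e3 p (a s) (b s) (h s)) (e3 (dA p) (a t) (b t) (h t) * a' +
      e3 (dB p) (a t) (b t) (h t) * b' + e3 (dH p) (a t) (b t) (h t) * h') t := by
  induction p with
  | nil =>
    simp only [e3_nil, dA, dB, dH, List.map_nil, zero_mul, add_zero]
    exact hasDerivAt_const t 0
  | cons u p ih =>
    have h1 := (((ha.pow u.2.1).mul (hb.pow u.2.2.1)).mul (hh.pow u.2.2.2)).const_mul (u.1 : ℝ)
    have h2 := h1.add ih
    have hA : dA (u :: p) = (u.1 * u.2.1, u.2.1 - 1, u.2.2.1, u.2.2.2) :: dA p := rfl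
    have hB : dB (u :: p) = (u.1 * u.2.2.1, u.2.1, u.2.2.1 - 1, u.2.2.2) :: dB p := rfl
    have hH : dH (u :: p) = (u.1 * u.2.2.2, u.2.1, u.2.2.1, u.2.2.2 - 1) :: dH p := rfl
    rw [hA, hB, hH]
    simp only [e3_cons]
    refine (h2.congr_deriv ?_).congr_of_eventuallyEq (Filter.Eventually.of_forall fun s => ?_)
    · push_cast
      simp only [Pi.mul_apply, Pi.pow_apply]
      ring
    · simp only [Pi.add_apply, Pi.mul_apply, Pi.pow_apply]
      ring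

/-- basis vector -/
abbrev ee {n : ℕ} (i : Fin n) : V n := EuclideanSpace.single i (1 : ℝ)

theorem inner_ee {n : ℕ} (i : Fin n) (x : V n) : ⟪ee i, x⟫ = x i := by
  simp [ee, EuclideanSpace.inner_single_left]

theorem inner_ee' {n : ℕ} (i : Fin n) (x : V n) : ⟪x, ee i⟫ = x i := by
  rw [real_inner_comm, inner_ee]

theorem norm_ee {n : ℕ} (i : Fin n) : ‖(ee i : V n)‖ = 1 := by
  simp [ee]

theorem inner_sum' {n : ℕ} (x y : V n) : ⟪x, y⟫ = ∑ i, x i * y i := by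
  rw [PiLp.inner_apply]
  refine Finset.sum_congr rfl fun i _ => ?_
  simp [mul_comm]

theorem norm_sum' {n : ℕ} (x : V n) : ‖x‖ ^ 2 = ∑ i, x i * x i := by
  rw [← real_inner_self_eq_norm_sq, inner_sum']

theorem deriv_norm {n : ℕ} (x : V n) (i : Fin n) :
    HasDerivAt (fun t : ℝ => ‖x + t • ee i‖ ^ 2) (2 * x i) 0 := by
  have h : (fun t : ℝ => ‖x + t • (ee i : V n)‖ ^ 2) = fun t => ‖x‖ ^ 2 + 2 * x i * t + t ^ 2 := by
    funext t
    rw [norm_add_sq_real, inner_smul_right, inner_ee', norm_smul, norm_ee, mul_one]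
    rw [Real.norm_eq_abs, sq_abs]; ring
  rw [h]
  have := ((hasDerivAt_const (0 : ℝ) (‖x‖ ^ 2)).add ((hasDerivAt_id (0 : ℝ)).const_mul (2 * x i))).add
    ((hasDerivAt_id (0 : ℝ)).pow 2)
  refine (this.congr_deriv (by simp)).congr_of_eventuallyEq (Filter.Eventually.of_forall fun s => ?_)
  simp

theorem deriv_inner {n : ℕ} (x y : V n) (i : Fin n) :
    HasDerivAt (fun t : ℝ => ⟪x + t • ee i, y⟫) (y i) 0 := by
  have h : (fun t : ℝ => ⟪x + t • (ee i : V n), y⟫) = fun t => ⟪x, y⟫ + t * y i := by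
    funext t
    rw [inner_add_left, inner_smul_left, inner_ee]; simp
  rw [h]
  have := (hasDerivAt_const (0 : ℝ) (⟪x, y⟫)).add ((hasDerivAt_id (0 : ℝ)).mul_const (y i))
  exact this.congr_deriv (by simp)

/-- derivative of a kernel in the first vector -/
theorem deriv_x {n : ℕ} (p : P3) (x y : V n) (i : Fin n) :
    HasDerivAt (fun t : ℝ => e3 p (‖x + t • ee i‖ ^ 2) (‖y‖ ^ 2) ⟪x + t • ee i, y⟫)
      (e3 (dA p) (‖x‖ ^ 2) (‖y‖ ^ 2) ⟪x, y⟫ * (2 * x i) +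
        e3 (dH p) (‖x‖ ^ 2) (‖y‖ ^ 2) ⟪x, y⟫ * y i) 0 := by
  have h := deriv_e3 p _ _ _ _ _ _ 0 (deriv_norm x i) (hasDerivAt_const (0 : ℝ) (‖y‖ ^ 2))
    (deriv_inner x y i)
  refine h.congr_deriv ?_
  simp

/-- derivative of a kernel in the second vector -/
theorem deriv_y {n : ℕ} (p : P3) (x y : V n) (i : Fin n) :
    HasDerivAt (fun t : ℝ => e3 p (‖x‖ ^ 2) (‖y + t • ee i‖ ^ 2) ⟪x, y + t • ee i⟫)
      (e3 (dB p) (‖x‖ ^ 2) (‖y‖ ^ 2) ⟪x, y⟫ * (2 * y i) +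
        e3 (dH p) (‖x‖ ^ 2) (‖y‖ ^ 2) ⟪x, y⟫ * x i) 0 := by
  have hi : HasDerivAt (fun t : ℝ => ⟪x, y + t • (ee i : V n)⟫) (x i) 0 := by
    refine (deriv_inner y x i).congr_of_eventuallyEq (Filter.Eventually.of_forall fun s => ?_)
    exact real_inner_comm _ _
  have h := deriv_e3 p _ _ _ _ _ _ 0 (hasDerivAt_const (0 : ℝ) (‖x‖ ^ 2)) (deriv_norm y i) hi
  refine h.congr_deriv ?_
  simp

/-- partial derivative -/
def Dd {n : ℕ} (i : Fin n) (h : V n → ℝ) (x : V n) : ℝ := fderiv ℝ h x (ee i)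

theorem Dd_smooth {n : ℕ} (i : Fin n) (h : V n → ℝ) (hh : ContDiff ℝ ∞ h) :
    ContDiff ℝ ∞ (Dd i h) :=
  (hh.fderiv_right (m := ∞) (by simp)).clm_apply contDiff_const

theorem Dd_deriv {n : ℕ} (i : Fin n) (h : V n → ℝ) (hh : ContDiff ℝ ∞ h) (x : V n) :
    HasDerivAt (fun t : ℝ => h (x + t • ee i)) (Dd i h x) 0 :=
  ((hh.differentiable (by simp)) x).hasFDerivAt.hasLineDerivAt (ee i)

/-- the raising operator -/
def Mm {n : ℕ} (c : ℤ) (i : Fin n) (h : V n → ℝ) (x : V n) : ℝ :=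
  c * x i * h x - ‖x‖ ^ 2 * Dd i h x

theorem Mm_smooth {n : ℕ} (c : ℤ) (i : Fin n) (h : V n → ℝ) (hh : ContDiff ℝ ∞ h) :
    ContDiff ℝ ∞ (Mm c i h) := by
  have hx : ContDiff ℝ ∞ (fun x : V n => x i) := by fun_prop
  exact ((contDiff_const.mul hx).mul hh).sub ((contDiff_norm_sq ℝ).mul (Dd_smooth i h hh))

/-- sums of squares of smooth functions -/
def SqK (n : ℕ) (p : P3) : Prop := ∃ (ι : Type) (_ : Fintype ι) (h : ι → V n → ℝ),
  (∀ j, ContDiff ℝ ∞ (h j)) ∧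
    ∀ x y : V n, e3 p (‖x‖ ^ 2) (‖y‖ ^ 2) ⟪x, y⟫ = ∑ j, h j x * h j y

theorem sqk_one (n : ℕ) : SqK n [(1, 0, 0, 0)] :=
  ⟨Unit, inferInstance, fun _ _ => 1, fun _ => contDiff_const, fun x y => by simp [e3]⟩

theorem sqk_step (n : ℕ) (c : ℤ) (p : P3) (h : SqK n p) : SqK n (opM n c p) := by
  obtain ⟨ι, _, h, hs, hK⟩ := h
  refine ⟨Fin n × ι, inferInstance, fun j => Mm c j.1 (h j.2),
    fun j => Mm_smooth c j.1 (h j.2) (hs j.2), ?_⟩
  -- first step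
  have h1 : ∀ (x y : V n) (i : Fin n),
      x i * e3 (opU c p) (‖x‖ ^ 2) (‖y‖ ^ 2) ⟪x, y⟫ + y i * e3 (opV p) (‖x‖ ^ 2) (‖y‖ ^ 2) ⟪x, y⟫ =
        ∑ j, Mm c i (h j) x * h j y := by
    intro x y i
    have hd := deriv_x p x y i
    have he : HasDerivAt (fun t : ℝ => ∑ j, h j (x + t • ee i) * h j y)
        (∑ j, Dd i (h j) x * h j y) 0 := by
      have := HasDerivAt.fun_sum (u := Finset.univ)
        (fun j (_ : j ∈ Finset.univ) => (Dd_deriv i (h j) (hs j) x).mul_const (h j y))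
      exact this
    have hu := hd.unique (he.congr_of_eventuallyEq
      (Filter.Eventually.of_forall fun t => (hK (x + t • ee i) y)))
    have hv := hK x y
    simp only [opU, opV, e3_app, e3_sc, e3_mA]
    have : ∑ j, Mm c i (h j) x * h j y =
        c * x i * ∑ j, h j x * h j y - ‖x‖ ^ 2 * ∑ j, Dd i (h j) x * h j y := by
      rw [Finset.mul_sum, Finset.mul_sum, ← Finset.sum_sub_distrib]
      refine Finset.sum_congr rfl fun j _ => ?_
      simp only [Mm]; ring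
    rw [this, ← hv, ← hu]
    push_cast
    ring
  intro x y
  rw [Fintype.sum_prod_type]
  have h2 : ∀ i : Fin n,
      ∑ j, Mm c i (h j) x * Mm c i (h j) y =
      c * y i * (x i * e3 (opU c p) (‖x‖ ^ 2) (‖y‖ ^ 2) ⟪x, y⟫ +
        y i * e3 (opV p) (‖x‖ ^ 2) (‖y‖ ^ 2) ⟪x, y⟫) -
      ‖y‖ ^ 2 * (x i * (e3 (dB (opU c p)) (‖x‖ ^ 2) (‖y‖ ^ 2) ⟪x, y⟫ * (2 * y i) +
        e3 (dH (opU c p)) (‖x‖ ^ 2) (‖y‖ ^ 2) ⟪x, y⟫ * x i) +
        (e3 (opV p) (‖x‖ ^ 2) (‖y‖ ^ 2) ⟪x, y⟫ +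
          y i * (e3 (dB (opV p)) (‖x‖ ^ 2) (‖y‖ ^ 2) ⟪x, y⟫ * (2 * y i) +
        e3 (dH (opV p)) (‖x‖ ^ 2) (‖y‖ ^ 2) ⟪x, y⟫ * x i))) := by
    intro i
    have hc : HasDerivAt (fun t : ℝ => (y + t • (ee i : V n)) i) 1 0 := by
      have e1 : (fun t : ℝ => (y + t • (ee i : V n)) i) = fun t => y i + t := by
        funext t; simp
      rw [e1]
      exact (hasDerivAt_id (0 : ℝ)).const_add (y i)
    have hd := ((deriv_y (opU c p) x y i).const_mul (x i)).add (hc.mul (deriv_y (opV p) x y i))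
    have he : HasDerivAt (fun t : ℝ => ∑ j, Mm c i (h j) x * h j (y + t • ee i))
        (∑ j, Mm c i (h j) x * Dd i (h j) y) 0 := by
      have := HasDerivAt.fun_sum (u := Finset.univ)
        (fun j (_ : j ∈ Finset.univ) => (Dd_deriv i (h j) (hs j) y).const_mul (Mm c i (h j) x))
      exact this
    have hu := hd.unique (he.congr_of_eventuallyEq
      (Filter.Eventually.of_forall fun t => (h1 x (y + t • ee i) i)))
    have hv := h1 x y i
    have : ∑ j, Mm c i (h j) x * Mm c i (h j) y =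
        c * y i * (∑ j, Mm c i (h j) x * h j y) - ‖y‖ ^ 2 * ∑ j, Mm c i (h j) x * Dd i (h j) y := by
      rw [Finset.mul_sum, Finset.mul_sum, ← Finset.sum_sub_distrib]
      refine Finset.sum_congr rfl fun j _ => ?_
      simp only [Mm]; ring
    rw [this, ← hv, ← hu]
    simp only [zero_smul, add_zero]
    ring
  simp only [h2]
  have hx := norm_sum' x
  have hy := norm_sum' y
  have hxy := inner_sum' x y
  simp only [opM, e3_app, e3_sc, e3_mA, e3_mB, e3_mH]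
  set U := e3 (opU c p) (‖x‖ ^ 2) (‖y‖ ^ 2) ⟪x, y⟫
  set W' := e3 (opV p) (‖x‖ ^ 2) (‖y‖ ^ 2) ⟪x, y⟫
  set UB := e3 (dB (opU c p)) (‖x‖ ^ 2) (‖y‖ ^ 2) ⟪x, y⟫
  set UH := e3 (dH (opU c p)) (‖x‖ ^ 2) (‖y‖ ^ 2) ⟪x, y⟫
  set VB := e3 (dB (opV p)) (‖x‖ ^ 2) (‖y‖ ^ 2) ⟪x, y⟫
  set VH := e3 (dH (opV p)) (‖x‖ ^ 2) (‖y‖ ^ 2) ⟪x, y⟫
  have h3 : ∀ i : Fin n, c * y i * (x i * U + y i * W') -
      ‖y‖ ^ 2 * (x i * (UB * (2 * y i) + UH * x i) + (W' + y i * (VB * (2 * y i) + VH * x i))) =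
      (c * U - 2 * ‖y‖ ^ 2 * UB - ‖y‖ ^ 2 * VH) * (x i * y i) +
      (c * W' - 2 * ‖y‖ ^ 2 * VB) * (y i * y i) - ‖y‖ ^ 2 * UH * (x i * x i) - ‖y‖ ^ 2 * W' := by
    intro i; ring
  simp only [h3, Finset.sum_sub_distrib, Finset.sum_add_distrib, ← Finset.mul_sum, ← hx, ← hy, ← hxy,
    Finset.sum_const, Finset.card_univ, Fintype.card_fin, nsmul_eq_mul]
  push_cast
  ring

/-- **the kernels of all degrees are sums of squares** -/
theorem sqk_Zk (n l : ℕ) : SqK n (Zk n l) := by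
  induction l with
  | zero => exact sqk_one n
  | succ l ih => exact sqk_step n _ _ ih

end Pool.Agent.LPZ
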